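import Pool.Agent.Work.MP_0e72ae_gt.Sym

/-!
The polynomial comparison of ordinary and convexified Hilbert packing numbers fails, already for
origin-symmetric bodies: the outer body is the cube, the inner body lies in half the cube.
-/

set_option autoImplicit false

namespace Pool.Agent.Results.MP_0e72ae_gt.NoPolySymmetric

open Pool.Agent.Work.MP_0e72ae_gt

theorem result :
    ∀ C₀ c₀ q : ℝ, 0 < C₀ → 0 < c₀ → 1 ≤ q →
      ∃ (d : ℕ) (G K : Set (E d)) (α : ℝ), 1 ≤ d ∧ Admissible G K ∧ 0 < α ∧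
        K = {w | ∀ j, |w j| ≤ 1} ∧ (∀ x ∈ G, -x ∈ G) ∧ (∀ x ∈ G, ∀ j, |x j| ≤ 1 / 2) ∧
        α = 1 / 12 ∧
        C₀ * (convPacking G K (c₀ * α) : ℝ) ^ q < (packing G K α : ℝ) := by
  intro C₀ c₀ q hC hc hq
  obtain ⟨d, G, hd, hA, hs, hh, h⟩ := symNoPoly C₀ c₀ q hC hc hq
  exact ⟨d, G, cube d 1, 1 / 12, hd, hA, by norm_num, rfl, hs, fun x hx => hh hx, rfl, h⟩

end Pool.Agent.Results.MP_0e72ae_gt.NoPolySymmetric
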