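import Pool.Agent.Work.MP_0e72ae_gt.Main

/-!
Dimension-free quasi-polynomial comparison of ordinary and convexified Hilbert packing numbers.
-/

namespace Pool.Agent.Results.MP_0e72ae_gt.QuasiPoly

open Pool.Agent.Work.MP_0e72ae_gt

theorem result :
    ∃ C : ℝ, 0 < C ∧ ∀ (d : ℕ) (G K : Set (E d)), Admissible G K → ∀ α : ℝ, 0 < α →
      (packing G K α : ℝ) ≤
        Real.exp (C * (1 + Real.log (convPacking G K (α / 14))) ^ 19) :=
  ⟨2 ^ 31, by positivity, fun _ _ _ h _ hα => quasi_poly h hα⟩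

end Pool.Agent.Results.MP_0e72ae_gt.QuasiPoly
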